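import Pool.Agent.X17.Monogenic

set_option autoImplicit false

/-!
# Monogenicity of the irreducible factors of `L_n(x)` for odd `n`

For odd `n ≥ 3` let `ζ` be a primitive `n`-th root of unity and `θ = ζ - ζ⁻¹`, a root of `L_n`.
Then `ζ ∈ ℚ(θ)` is integral, but if `ζ = h(θ)` with `h ∈ ℤ[x]` then complex conjugation gives
`ζ⁻¹ = h(-θ) ≡ h(θ) mod 2`, so that `2` divides `ζ - ζ⁻¹ = -ζ⁻¹ (1 - ζ²)`, a divisor of `n`.
-/

namespace Pool.Agent.Results.MP_14f819_nt.OddLucas

open Polynomial Pool.Agent.X17.Monogenic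

/-- **Theorem.** For odd `n ≥ 1`, every monic irreducible factor of the Lucas polynomial `L_n` is
monogenic if and only if `n = 1`. -/
theorem result (n : ℕ) (hn : Odd n) :
    (∀ f : ℤ[X], f.Monic → Irreducible f → f ∣ lucas n → IsMonogenic f) ↔ n = 1 := by
  constructor
  · intro H
    by_contra hne
    have hpos : 0 < n := hn.pos
    have hprim := Complex.isPrimitiveRoot_exp n hpos.ne'
    set ζ := Complex.exp (2 * Real.pi * Complex.I / n) with hζ
    have h1 : ζ ≠ 1 := hprim.ne_one (by omega)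
    obtain ⟨hmem, hint, hnot⟩ := not_adjoin n hn ζ hprim.pow_eq_one h1
    have hζ0 : ζ ≠ 0 := hprim.ne_zero hpos.ne'
    have hroot : aeval (ζ - ζ⁻¹) (lucas n) = 0 := by
      rw [aeval_lucas ζ hζ0, neg_pow, hn.neg_one_pow, inv_pow, hprim.pow_eq_one]
      norm_num
    have hθint : IsIntegral ℤ (ζ - ζ⁻¹) := by
      refine hint.sub ?_
      exact IsIntegral.of_pow hpos (by rw [inv_pow, hprim.pow_eq_one, inv_one]; exact isIntegral_one)
    have := H (minpoly ℤ (ζ - ζ⁻¹)) (minpoly.monic hθint) (minpoly.irreducible hθint)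
      (minpoly.isIntegrallyClosed_dvd hθint hroot) (ζ - ζ⁻¹) (minpoly.aeval ℤ _)
    apply hnot
    have h2 : ζ ∈ {y : ℂ | y ∈ IntermediateField.adjoin ℚ ({ζ - ζ⁻¹} : Set ℂ) ∧ IsIntegral ℤ y} :=
      ⟨hmem, hint⟩
    rw [this] at h2
    exact h2
  · rintro rfl f hf hirr hdvd
    rw [eq_of_dvd hf hirr monic_X Polynomial.irreducible_X hdvd]
    exact isMonogenic_X

end Pool.Agent.Results.MP_14f819_nt.OddLucas
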